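import Pool.Agent.Y916.Fld
import Pool.Agent.Y916.NF

/-!
# Relations between entries of `2 × 2` matrices of given determinant, and changes of bases
-/

set_option autoImplicit false

open Module MvPolynomial

namespace Pool.Agent.U124.PC

open Pool.Agent.Y916.Fld Pool.Agent.Y916.Gre

/-- three entries of a matrix -/
def three {α : Type*} (B : Matrix (Fin 2) (Fin 2) α) : Fin 3 → α := ![B 0 0, B 1 0, B 0 1]

section Calc

variable {ι : Type*} [DecidableEq ι] {K : Type*} [Field K] [Algebra K ℂ]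

theorem ok_pow2 {V : Submodule K ℂ} {A : Finset ι} {c : ℕ} {P : MvPolynomial ι ℂ}
    (hP : Ok ((V ^ c : Submodule K ℂ) : Set ℂ) c A P) (n : ℕ) :
    Ok ((V ^ (c * n) : Submodule K ℂ) : Set ℂ) (c * n) A (P ^ n) := by
  induction n with
  | zero =>
    rw [pow_zero, Nat.mul_zero]
    have : (1 : ℂ) ∈ V ^ 0 := by simp
    simpa using ok_C (ι := ι) (A := A) this
  | succ n ih =>
    rw [pow_succ, Nat.mul_succ]
    exact ok_mul ih hP

theorem ok_prod2 {κ : Type*} [DecidableEq κ] {V : Submodule K ℂ} {A : Finset ι} (c : ℕ) (s : Finset κ)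
    (g : κ → MvPolynomial ι ℂ) (hg : ∀ i, Ok ((V ^ c : Submodule K ℂ) : Set ℂ) c A (g i)) (m : κ → ℕ) :
    Ok ((V ^ (c * ∑ i ∈ s, m i) : Submodule K ℂ) : Set ℂ) (c * ∑ i ∈ s, m i) A (∏ i ∈ s, g i ^ m i) := by
  induction s using Finset.induction_on with
  | empty =>
    rw [Finset.prod_empty, Finset.sum_empty, Nat.mul_zero]
    have : (1 : ℂ) ∈ V ^ 0 := by simp
    simpa using ok_C (ι := ι) (A := A) this
  | insert j s hj ih =>
    rw [Finset.prod_insert hj, Finset.sum_insert hj, Nat.mul_add]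
    exact ok_mul (ok_pow2 (hg j) _) ih

end Calc

section Main

variable {k : ℕ}

/-- `A` times its first entry, in terms of the three entries and of the determinant -/
noncomputable def GM (κ : ℂ) (j : Fin k) : Matrix (Fin 2) (Fin 2) (MvPolynomial (Fin k × Fin 3) ℂ) :=
  !![X (j, 0) * X (j, 0), X (j, 0) * X (j, 2); X (j, 0) * X (j, 1), C κ + X (j, 2) * X (j, 1)]

/-- the matrix `R A S` times the first entry of `A` -/
noncomputable def GG (κ : ℂ) (R S : Matrix (Fin 2) (Fin 2) ℂ) (j : Fin k) :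
    Matrix (Fin 2) (Fin 2) (MvPolynomial (Fin k × Fin 3) ℂ) :=
  R.map C * GM κ j * S.map C

/-- the transformed relation -/
noncomputable def QQ (κ : ℂ) (R S : Fin k → Matrix (Fin 2) (Fin 2) ℂ) (δ : ℕ) (P : MvPolynomial (Fin k × Fin 3) ℂ) :
    MvPolynomial (Fin k × Fin 3) ℂ :=
  ∑ e ∈ P.support, C (P.coeff e) * (∏ j, X (j, (0 : Fin 3)) ^ (δ - ∑ s, e (j, s))) *
    ∏ y : Fin k × Fin 3, three (GG κ (R y.1) (S y.1) y.1) y.2 ^ e y

theorem eval_GG {κ : ℂ} {R S A : Matrix (Fin 2) (Fin 2) ℂ} {j : Fin k} {x : Fin k × Fin 3 → ℂ}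
    (hx : ∀ s, x (j, s) = three A s) (hdet : A 0 0 * A 1 1 - A 0 1 * A 1 0 = κ) (i l : Fin 2) :
    eval x (GG κ R S j i l) = A 0 0 * (R * A * S) i l := by
  have h0 : x (j, 0) = A 0 0 := hx 0
  have h1 : x (j, 1) = A 1 0 := hx 1
  have h2 : x (j, 2) = A 0 1 := hx 2
  have h3 : κ = A 0 0 * A 1 1 - A 0 1 * A 1 0 := hdet.symm
  simp only [GG, GM, Matrix.mul_apply, Fin.sum_univ_two, Matrix.map_apply, Matrix.of_apply, Matrix.cons_val', Matrix.cons_val_zero,
    Matrix.cons_val_one, Matrix.cons_val_fin_one, map_add, map_mul, eval_C, eval_X, h0, h1, h2, h3]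
  ring

theorem sum_le {δ : ℕ} {P : MvPolynomial (Fin k × Fin 3) ℂ} (hP : P.totalDegree ≤ δ) {e : Fin k × Fin 3 →₀ ℕ}
    (he : e ∈ P.support) : ∑ y, e y ≤ δ := by
  have h := (le_totalDegree he).trans hP
  rwa [Finsupp.sum_fintype _ _ (fun _ => rfl)] at h

theorem eval_QQ {κ : ℂ} {R S A : Fin k → Matrix (Fin 2) (Fin 2) ℂ} {δ : ℕ} {P : MvPolynomial (Fin k × Fin 3) ℂ}
    (hP : P.totalDegree ≤ δ) (hdet : ∀ j, A j 0 0 * A j 1 1 - A j 0 1 * A j 1 0 = κ) :
    eval (fun y : Fin k × Fin 3 => three (A y.1) y.2) (QQ κ R S δ P) =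
      (∏ j, A j 0 0 ^ δ) * eval (fun y : Fin k × Fin 3 => three (R y.1 * A y.1 * S y.1) y.2) P := by
  rw [QQ, map_sum, eval_eq', Finset.mul_sum]
  refine Finset.sum_congr rfl fun e he => ?_
  rw [map_mul, map_mul, eval_C, map_prod, map_prod]
  have h1 : ∀ y : Fin k × Fin 3, eval (fun y : Fin k × Fin 3 => three (A y.1) y.2)
      (three (GG κ (R y.1) (S y.1) y.1) y.2 ^ e y) =
      A y.1 0 0 ^ e y * three (R y.1 * A y.1 * S y.1) y.2 ^ e y := by
    rintro ⟨j, s⟩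
    rw [map_pow, ← mul_pow]
    congr 1
    have h := fun i l => eval_GG (κ := κ) (R := R j) (S := S j) (A := A j) (j := j)
      (x := fun y : Fin k × Fin 3 => three (A y.1) y.2) (fun _ => rfl) (hdet j) i l
    fin_cases s
    · exact h 0 0
    · exact h 1 0
    · exact h 0 1
  rw [Finset.prod_congr rfl fun y _ => h1 y, Finset.prod_mul_distrib]
  have h2 : ∀ j : Fin k, eval (fun y : Fin k × Fin 3 => three (A y.1) y.2) (X (j, (0 : Fin 3)) ^ (δ - ∑ s, e (j, s))) =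
      A j 0 0 ^ (δ - ∑ s, e (j, s)) := by
    intro j
    rw [map_pow, eval_X]
    rfl
  rw [Finset.prod_congr rfl fun j _ => h2 j]
  have h3 : ∏ y : Fin k × Fin 3, A y.1 0 0 ^ e y = ∏ j, A j 0 0 ^ (∑ s, e (j, s)) := by
    rw [Fintype.prod_prod_type]
    exact Finset.prod_congr rfl fun j _ => Finset.prod_pow_eq_pow_sum Finset.univ (fun s => e (j, s)) (A j 0 0)
  have h4 : ∏ j, A j 0 0 ^ δ = (∏ j, A j 0 0 ^ (δ - ∑ s, e (j, s))) * ∏ j, A j 0 0 ^ (∑ s, e (j, s)) := by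
    rw [← Finset.prod_mul_distrib]
    refine Finset.prod_congr rfl fun j _ => ?_
    rw [← pow_add]
    congr 1
    have h5 := sum_le hP he
    rw [Fintype.sum_prod_type] at h5
    have h6 := Finset.single_le_sum (f := fun j => ∑ s, e (j, s)) (fun _ _ => Nat.zero_le _) (Finset.mem_univ j)
    omega
  rw [h3, h4]
  ring

/-- the first entry of the original matrix times the first entry of the new matrix -/
noncomputable def gp (κ' : ℂ) (r s : Matrix (Fin 2) (Fin 2) ℂ) (j : Fin k) : MvPolynomial (Fin k × Fin 3) ℂ :=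
  C (r 0 0 * s 0 0) * (X (j, 0) * X (j, 0)) + C (r 0 0 * s 1 0) * (X (j, 0) * X (j, 2)) +
    C (r 0 1 * s 0 0) * (X (j, 0) * X (j, 1)) + C (r 0 1 * s 1 0) * (C κ' + X (j, 2) * X (j, 1))

theorem gp_ne {κ' : ℂ} {r s : Matrix (Fin 2) (Fin 2) ℂ} (hr : r.det ≠ 0) (hs : s.det ≠ 0) (j : Fin k) :
    gp κ' r s j ≠ 0 := by
  intro h
  have hv : ∀ a b c : ℂ, r 0 0 * s 0 0 * (a * a) + r 0 0 * s 1 0 * (a * c) + r 0 1 * s 0 0 * (a * b) +
      r 0 1 * s 1 0 * (κ' + c * b) = 0 := by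
    intro a b c
    have h1 := congrArg (eval (fun y : Fin k × Fin 3 => (![a, b, c] : Fin 3 → ℂ) y.2)) h
    simpa [gp] using h1
  have h1 := hv 0 0 0
  have h2 := hv 0 1 1
  have h3 : r 0 1 * s 1 0 = 0 := by linear_combination h2 - h1
  have h4 : r 0 0 * s 0 0 = 0 := by
    have := hv 1 0 0
    linear_combination this - κ' * h3
  have h5 : r 0 0 * s 1 0 = 0 := by
    have := hv 1 0 1
    linear_combination this - κ' * h3 - h4
  have h6 : r 0 1 * s 0 0 = 0 := by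
    have := hv 1 1 0
    linear_combination this - κ' * h3 - h4
  rw [Matrix.det_fin_two] at hr hs
  rcases mul_eq_zero.1 h4 with h7 | h7
  · rcases mul_eq_zero.1 h3 with h8 | h8
    · apply hr
      rw [h7, h8]
      ring
    · rcases mul_eq_zero.1 h6 with h9 | h9
      · apply hr
        rw [h7, h9]
        ring
      · apply hs
        rw [h8, h9]
        ring
  · rcases mul_eq_zero.1 h5 with h8 | h8
    · rcases mul_eq_zero.1 h3 with h9 | h9
      · apply hr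
        rw [h8, h9]
        ring
      · apply hs
        rw [h7, h9]
        ring
    · apply hs
      rw [h7, h8]
      ring

theorem QQ_ne {κ : ℂ} {R S : Fin k → Matrix (Fin 2) (Fin 2) ℂ} (hR : ∀ j, (R j).det ≠ 0) (hS : ∀ j, (S j).det ≠ 0)
    {δ : ℕ} {P : MvPolynomial (Fin k × Fin 3) ℂ} (hP0 : P ≠ 0) (hP : P.totalDegree ≤ δ) : QQ κ R S δ P ≠ 0 := by
  intro h
  -- the inverse matrices
  have hinv : ∀ M : Matrix (Fin 2) (Fin 2) ℂ, M.det ≠ 0 → ∃ N : Matrix (Fin 2) (Fin 2) ℂ, M * N = 1 ∧ N * M = 1 ∧ N.det ≠ 0 ∧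
      M.det * N.det = 1 := by
    intro M hM
    have hu : IsUnit M.det := Ne.isUnit hM
    have h1 : M.det * (M⁻¹).det = 1 := by
      rw [← Matrix.det_mul, Matrix.mul_nonsing_inv _ hu, Matrix.det_one]
    exact ⟨M⁻¹, Matrix.mul_nonsing_inv _ hu, Matrix.nonsing_inv_mul _ hu, right_ne_zero_of_mul_eq_one h1, h1⟩
  choose r hRr hrR hr hrd using fun j => hinv (R j) (hR j)
  choose s hSs hsS hs hsd using fun j => hinv (S j) (hS j)
  set κ' : Fin k → ℂ := fun j => κ * (R j).det * (S j).det with hκ'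
  have hH : P * ∏ j : Fin k, (X (j, (0 : Fin 3)) * gp (κ' j) (r j) (s j) j) = 0 := by
    apply MvPolynomial.funext
    intro f
    rw [map_zero, map_mul, map_prod]
    by_cases hf : ∃ j : Fin k, eval f (X (j, (0 : Fin 3)) * gp (κ' j) (r j) (s j) j) = 0
    · obtain ⟨j, hj⟩ := hf
      rw [Finset.prod_eq_zero (Finset.mem_univ j) hj, mul_zero]
    have hf' : ∀ j : Fin k, f (j, 0) ≠ 0 ∧ eval f (gp (κ' j) (r j) (s j) j) ≠ 0 := by
      intro j
      have h1 : eval f (X (j, (0 : Fin 3)) * gp (κ' j) (r j) (s j) j) ≠ 0 := fun h2 => hf ⟨j, h2⟩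
      rw [map_mul, eval_X] at h1
      exact ⟨left_ne_zero_of_mul h1, right_ne_zero_of_mul h1⟩
    set Xm : Fin k → Matrix (Fin 2) (Fin 2) ℂ := fun j =>
      !![f (j, 0), f (j, 2); f (j, 1), (κ' j + f (j, 2) * f (j, 1)) / f (j, 0)] with hXm
    set A : Fin k → Matrix (Fin 2) (Fin 2) ℂ := fun j => r j * Xm j * s j with hA
    have hRAS : ∀ j, R j * A j * S j = Xm j := by
      intro j
      have : R j * A j * S j = (R j * r j) * Xm j * (s j * S j) := by
        rw [hA]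
        simp only [Matrix.mul_assoc]
      rw [this, hRr, hsS, one_mul, mul_one]
    have hXd : ∀ j, (Xm j).det = κ' j := by
      intro j
      rw [hXm]
      simp only
      rw [Matrix.det_fin_two_of, mul_div_cancel₀ _ (hf' j).1]
      ring
    have hAd : ∀ j, A j 0 0 * A j 1 1 - A j 0 1 * A j 1 0 = κ := by
      intro j
      rw [← Matrix.det_fin_two]
      rw [hA]
      simp only
      rw [Matrix.det_mul, Matrix.det_mul, hXd, hκ']
      linear_combination (κ * (S j).det * (s j).det) * hrd j + κ * hsd j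
    have h1 := eval_QQ (R := R) (S := S) hP hAd
    rw [h, map_zero] at h1
    have h2 : (fun y : Fin k × Fin 3 => three (R y.1 * A y.1 * S y.1) y.2) = f := by
      funext y
      obtain ⟨j, i⟩ := y
      simp only
      rw [hRAS]
      fin_cases i <;> rfl
    rw [h2] at h1
    have h3 : ∏ j, A j 0 0 ^ δ ≠ 0 := by
      refine Finset.prod_ne_zero_iff.2 fun j _ => pow_ne_zero _ ?_
      intro h4
      apply (hf' j).2
      have h5 : f (j, 0) * A j 0 0 = eval f (gp (κ' j) (r j) (s j) j) := by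
        have h6 : f (j, 0) * ((κ' j + f (j, 2) * f (j, 1)) / f (j, 0)) = κ' j + f (j, 2) * f (j, 1) :=
          mul_div_cancel₀ _ (hf' j).1
        have h7 : A j 0 0 = r j 0 0 * f (j, 0) * s j 0 0 + r j 0 1 * f (j, 1) * s j 0 0 + (r j 0 0 * f (j, 2) * s j 1 0 +
            r j 0 1 * ((κ' j + f (j, 2) * f (j, 1)) / f (j, 0)) * s j 1 0) := by
          rw [hA]
          simp only [Matrix.mul_apply, Fin.sum_univ_two, hXm, Matrix.of_apply, Matrix.cons_val', Matrix.cons_val_zero,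
            Matrix.cons_val_one, Matrix.cons_val_fin_one]
          ring
        rw [h7]
        simp only [gp, map_add, map_mul, eval_C, eval_X]
        linear_combination (r j 0 1 * s j 1 0) * h6
      rw [← h5, h4, mul_zero]
    rw [(mul_eq_zero.1 h1.symm).resolve_left h3, zero_mul]
  rcases mul_eq_zero.1 hH with h1 | h1
  · exact hP0 h1
  · obtain ⟨j, -, hj⟩ := Finset.prod_eq_zero_iff.1 h1
    rcases mul_eq_zero.1 hj with h2 | h2
    · exact X_ne_zero _ h2
    · exact gp_ne (hr j) (hs j) j h2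

theorem GG_ok {K : Type*} [Field K] [Algebra K ℂ] {V : Submodule K ℂ} (h1 : (1 : ℂ) ∈ V) {κ : ℂ} (hκ : κ ∈ V)
    (R S : Matrix (Fin 2) (Fin 2) K) (j : Fin k) (i l : Fin 2) :
    Ok ((V ^ 2 : Submodule K ℂ) : Set ℂ) 2 (Finset.univ : Finset (Fin k × Fin 3))
      (GG κ (R.map (algebraMap K ℂ)) (S.map (algebraMap K ℂ)) j i l) := by
  classical
  have hX : ∀ y : Fin k × Fin 3, Ok ((V ^ 1 : Submodule K ℂ) : Set ℂ) 1 Finset.univ (X y) := fun y => ok_X h1 (Finset.mem_univ y)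
  have hXX : ∀ y z : Fin k × Fin 3, Ok ((V ^ 2 : Submodule K ℂ) : Set ℂ) 2 Finset.univ (X y * X z) := fun y z =>
    ok_mul (hX y) (hX z)
  have hadd : ∀ {P Q : MvPolynomial (Fin k × Fin 3) ℂ}, Ok ((V ^ 2 : Submodule K ℂ) : Set ℂ) 2 Finset.univ P →
      Ok ((V ^ 2 : Submodule K ℂ) : Set ℂ) 2 Finset.univ Q → Ok ((V ^ 2 : Submodule K ℂ) : Set ℂ) 2 Finset.univ (P + Q) := by
    intro P Q hP hQ
    have := ok_sum (V := V) (A := Finset.univ) (a := 2) (Finset.univ : Finset (Fin 2)) ![P, Q] (by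
      intro i _
      fin_cases i
      · exact hP
      · exact hQ)
    rw [Fin.sum_univ_two] at this
    exact this
  have hC : Ok ((V ^ 2 : Submodule K ℂ) : Set ℂ) 2 (Finset.univ : Finset (Fin k × Fin 3)) (C κ) :=
    ok_mono h1 (by norm_num) (ok_C (a := 1) (by rwa [pow_one]))
  have hM : ∀ a b : Fin 2, Ok ((V ^ 2 : Submodule K ℂ) : Set ℂ) 2 Finset.univ (GM κ j a b) := by
    intro a b
    fin_cases a <;> fin_cases b
    · exact hXX _ _
    · exact hXX _ _
    · exact hXX _ _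
    · exact hadd hC (hXX _ _)
  have e : GG κ (R.map (algebraMap K ℂ)) (S.map (algebraMap K ℂ)) j i l =
      ∑ p : Fin 2 × Fin 2, C (algebraMap K ℂ (R i p.2 * S p.1 l)) * GM κ j p.2 p.1 := by
    rw [GG, Fintype.sum_prod_type]
    simp only [Matrix.mul_apply, Fin.sum_univ_two, Matrix.map_apply, map_mul]
    ring
  rw [e]
  exact ok_sum _ _ fun p _ => ok_smul _ (hM _ _)

theorem QQ_ok {K : Type*} [Field K] [Algebra K ℂ] {V : Submodule K ℂ} (h1 : (1 : ℂ) ∈ V) {κ : ℂ} (hκ : κ ∈ V)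
    (R S : Fin k → Matrix (Fin 2) (Fin 2) K) {δ : ℕ} {P : MvPolynomial (Fin k × Fin 3) ℂ} (hP : P.totalDegree ≤ δ)
    (hPc : ∀ e, P.coeff e ∈ V) :
    Ok ((V ^ (1 + k * δ + 2 * δ) : Submodule K ℂ) : Set ℂ) (1 + k * δ + 2 * δ) (Finset.univ : Finset (Fin k × Fin 3))
      (QQ κ (fun j => (R j).map (algebraMap K ℂ)) (fun j => (S j).map (algebraMap K ℂ)) δ P) := by
  classical
  refine ok_sum _ _ fun e he => ?_
  have hX : ∀ y : Fin k × Fin 3, Ok ((V ^ 1 : Submodule K ℂ) : Set ℂ) 1 Finset.univ (X y) := fun y => ok_X h1 (Finset.mem_univ y)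
  have h2 : Ok ((V ^ 1 : Submodule K ℂ) : Set ℂ) 1 (Finset.univ : Finset (Fin k × Fin 3)) (C (P.coeff e)) :=
    ok_C (by rw [pow_one]; exact hPc e)
  have h3 := ok_prod (V := V) (A := (Finset.univ : Finset (Fin k × Fin 3))) (Finset.univ : Finset (Fin k))
    (fun j => X (j, (0 : Fin 3))) (fun j => hX _) (fun j => δ - ∑ s, e (j, s))
  have h4 := ok_prod2 (V := V) (A := (Finset.univ : Finset (Fin k × Fin 3))) 2 (Finset.univ : Finset (Fin k × Fin 3))
    (fun y => three (GG κ ((R y.1).map (algebraMap K ℂ)) ((S y.1).map (algebraMap K ℂ)) y.1) y.2) (by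
      rintro ⟨j, s⟩
      fin_cases s
      · exact GG_ok h1 hκ (R j) (S j) j 0 0
      · exact GG_ok h1 hκ (R j) (S j) j 1 0
      · exact GG_ok h1 hκ (R j) (S j) j 0 1) (fun y => e y)
  have h5 : ∑ j : Fin k, (δ - ∑ s, e (j, s)) ≤ k * δ := by
    refine (Finset.sum_le_sum (g := fun _ => δ) fun j _ => Nat.sub_le _ _).trans ?_
    simp
  exact ok_mul (ok_mul h2 (ok_mono h1 h5 h3)) (ok_mono h1 (Nat.mul_le_mul_left 2 (sum_le hP he)) h4)

/-- the larger space -/
noncomputable def VV (V : Submodule ℚ ℂ) (κ : ℂ) (n : ℕ) : Submodule ℚ ℂ :=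
  ((V ⊔ Submodule.span ℚ {κ}) ⊔ 1) ^ n

theorem VV_dim (V : Submodule ℚ ℂ) [Module.Finite ℚ V] {D : ℕ} (hV : finrank ℚ V ≤ D) (κ : ℂ) (n : ℕ) :
    Module.Finite ℚ (VV V κ n) ∧ finrank ℚ (VV V κ n) ≤ (D + 1 + 1) ^ n := by
  have hf1 : Module.Finite ℚ (V ⊔ Submodule.span ℚ {κ} : Submodule ℚ ℂ) := Submodule.finite_sup V _
  have h1 : finrank ℚ (V ⊔ Submodule.span ℚ {κ} : Submodule ℚ ℂ) ≤ D + 1 := by
    have h3 := Submodule.finrank_add_le_finrank_add_finrank V (Submodule.span ℚ {κ})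
    have h4 : finrank ℚ (Submodule.span ℚ {κ}) ≤ 1 := by
      refine (finrank_span_le_card ({κ} : Set ℂ)).trans ?_
      simp
    omega
  exact Y916.NF.big h1 n

/-- **Change of bases.** -/
theorem change {K : IntermediateField ℚ ℂ} {κ : ℂ} {R S : Fin k → Matrix (Fin 2) (Fin 2) K}
    (hR : ∀ j, (R j).det ≠ 0) (hS : ∀ j, (S j).det ≠ 0) {A : Fin k → Matrix (Fin 2) (Fin 2) ℂ} (hA : ∀ j, (A j).det = κ)
    {V : Submodule ℚ ℂ} {δ : ℕ} {P : MvPolynomial (Fin k × Fin 3) ℂ} (hP0 : P ≠ 0) (hP : P.totalDegree ≤ δ)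
    (hPc : ∀ e, P.coeff e ∈ Submodule.span K (V : Set ℂ))
    (hPv : aeval (fun y : Fin k × Fin 3 => three ((R y.1).map (algebraMap K ℂ) * A y.1 * (S y.1).map (algebraMap K ℂ)) y.2) P = 0) :
    ∃ Q : MvPolynomial (Fin k × Fin 3) ℂ, Q ≠ 0 ∧ Q.totalDegree ≤ 1 + k * δ + 2 * δ ∧
      (∀ e, Q.coeff e ∈ Submodule.span K (VV V κ (1 + k * δ + 2 * δ) : Set ℂ)) ∧
      aeval (fun y : Fin k × Fin 3 => three (A y.1) y.2) Q = 0 := by
  classical
  set n := 1 + k * δ + 2 * δ with hn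
  set W : Submodule ℚ ℂ := (V ⊔ Submodule.span ℚ {κ}) ⊔ 1 with hW
  have hdet : ∀ M : Matrix (Fin 2) (Fin 2) K, M.det ≠ 0 → (M.map (algebraMap K ℂ)).det ≠ 0 := by
    intro M hM h
    apply hM
    have h1 : (M.map (algebraMap K ℂ)).det = algebraMap K ℂ M.det := by
      rw [Matrix.det_fin_two, Matrix.det_fin_two]
      simp
    rw [h1] at h
    exact (map_eq_zero _).1 h
  have h1W : (1 : ℂ) ∈ W := (le_sup_right : _ ≤ W) (Submodule.one_le.1 le_rfl)
  have hκW : κ ∈ W := (le_sup_left : _ ≤ W) ((le_sup_right : _ ≤ V ⊔ Submodule.span ℚ {κ}) (Submodule.mem_span_singleton_self κ))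
  have hVW : (V : Set ℂ) ⊆ W := fun c hc => (le_sup_left : _ ≤ W) ((le_sup_left : _ ≤ V ⊔ Submodule.span ℚ {κ}) hc)
  have hok := QQ_ok (V := Submodule.span K (W : Set ℂ)) (Submodule.subset_span h1W) (Submodule.subset_span hκW) R S hP
    (fun e => Submodule.span_mono hVW (hPc e))
  refine ⟨QQ κ (fun j => (R j).map (algebraMap K ℂ)) (fun j => (S j).map (algebraMap K ℂ)) δ P,
    QQ_ne (fun j => hdet _ (hR j)) (fun j => hdet _ (hS j)) hP0 hP, hok.2.1, fun e => ?_, ?_⟩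
  · have hc := hok.2.2 e
    rw [Submodule.span_pow] at hc
    refine Submodule.span_mono ?_ hc
    exact Submodule.pow_subset_pow (R := ℚ) (M := W) (n := n)
  · have h1 := eval_QQ (R := fun j => (R j).map (algebraMap K ℂ)) (S := fun j => (S j).map (algebraMap K ℂ)) (A := A) (κ := κ) hP
      (fun j => by rw [← hA j, Matrix.det_fin_two])
    have h2 : aeval (fun y : Fin k × Fin 3 => three (A y.1) y.2) (QQ κ (fun j => (R j).map (algebraMap K ℂ))
        (fun j => (S j).map (algebraMap K ℂ)) δ P) = eval (fun y : Fin k × Fin 3 => three (A y.1) y.2)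
        (QQ κ (fun j => (R j).map (algebraMap K ℂ)) (fun j => (S j).map (algebraMap K ℂ)) δ P) := rfl
    have h3 : eval (fun y : Fin k × Fin 3 => three ((R y.1).map (algebraMap K ℂ) * A y.1 * (S y.1).map (algebraMap K ℂ)) y.2) P = 0 := hPv
    rw [h2, h1, h3, mul_zero]

end Main

end Pool.Agent.U124.PC
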