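import Pool.Agent.Y124.EllInd
import Pool.Agent.TH659.AQ.Leg

/-!
# Legendre's relation on the doubly slit plane
-/

set_option autoImplicit false

open Filter Topology Complex

namespace Pool.Agent.U124.PC

open Pool.Agent.Y124

/-- Legendre's relation for complex parameters -/
theorem legC (m : ℂ) (hm : m ∈ Dom) :
    ellI (-(1 / 2)) m * ellI (1 / 2) (1 - m) + ellI (1 / 2) m * ellI (-(1 / 2)) (1 - m) -
      ellI (-(1 / 2)) m * ellI (-(1 / 2)) (1 - m) = (Real.pi : ℂ) / 2 := by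
  set f : ℂ → ℂ := fun m => ellI (-(1 / 2)) m * ellI (1 / 2) (1 - m) + ellI (1 / 2) m * ellI (-(1 / 2)) (1 - m) -
      ellI (-(1 / 2)) m * ellI (-(1 / 2)) (1 - m) with hf
  have h1 : ∀ (s : ℂ) (m : ℂ), m ∈ Dom → AnalyticAt ℂ (fun m => ellI s (1 - m)) m := by
    intro s m hm
    have h1 : AnalyticAt ℂ (ellI s) (1 - m) := by
      apply ellI_analyticAt
      have : (1 : ℂ) - (1 - m) = m := by ring
      rw [this]
      exact hm.1
    exact AnalyticAt.fun_comp (f := fun m : ℂ => 1 - m) h1 (analyticAt_const.sub analyticAt_id)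
  have h2 : ∀ (s : ℂ) (m : ℂ), m ∈ Dom → AnalyticAt ℂ (fun m => ellI s m) m := fun s m hm =>
    ellI_analyticAt _ m hm.2
  have han : AnalyticOnNhd ℂ f Dom := by
    intro m hm
    exact (((h2 _ m hm).mul (h1 _ m hm)).add ((h2 _ m hm).mul (h1 _ m hm))).sub ((h2 _ m hm).mul (h1 _ m hm))
  have hg : AnalyticOnNhd ℂ (fun _ : ℂ => (Real.pi : ℂ) / 2) Dom := fun _ _ => analyticAt_const
  have hreal : ∀ t : ℝ, 0 < t → t < 1 → f (t : ℂ) = (Real.pi : ℂ) / 2 := by
    intro t h0 ht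
    have h3 : (1 : ℂ) - (t : ℂ) = ((1 - t : ℝ) : ℂ) := by push_cast; ring
    rw [hf]
    simp only
    rw [h3, ellK_ofReal t ht, ellE_ofReal t ht, ellK_ofReal (1 - t) (by linarith), ellE_ofReal (1 - t) (by linarith)]
    have h4 := TH659.AQ.legHalf t h0 ht
    have h5 := congrArg (fun x : ℝ => (x : ℂ)) h4
    push_cast at h5
    push_cast
    exact h5
  have hfreq : ∃ᶠ z in 𝓝[≠] (((1 / 2 : ℝ)) : ℂ), f z = (fun _ : ℂ => (Real.pi : ℂ) / 2) z := by
    have ht : Tendsto (fun t : ℝ => (t : ℂ)) (𝓝[≠] (1 / 2 : ℝ)) (𝓝[≠] (((1 / 2 : ℝ)) : ℂ)) := by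
      refine tendsto_nhdsWithin_of_tendsto_nhds_of_eventually_within _ ?_ ?_
      · exact (Complex.continuous_ofReal.tendsto _).mono_left nhdsWithin_le_nhds
      · filter_upwards [self_mem_nhdsWithin] with t ht h
        exact ht (Complex.ofReal_injective h)
    refine ht.frequently ?_
    apply Eventually.frequently
    have h5 : ∀ᶠ t : ℝ in 𝓝 (1 / 2 : ℝ), 0 < t ∧ t < 1 :=
      (eventually_gt_nhds (by norm_num)).and (eventually_lt_nhds (by norm_num))
    filter_upwards [h5.filter_mono nhdsWithin_le_nhds] with t ht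
    exact hreal t ht.1 ht.2
  exact han.eqOn_of_preconnected_of_frequently_eq hg isPreconnected_Dom half_mem_Dom hfreq hm

end Pool.Agent.U124.PC
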